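import Mathlib

/-!
The integers `a n = lcm(1, ..., n) / (denominator of the n-th harmonic number)` are never
divisible by `81`.  Hence no odd multiple of `81` occurs among them, and the conjecture that
every odd positive integer occurs is false.
-/

namespace Pool.Agent.Results.MP_2b19eb_nt.MissedMultiples

open Finset

/-- `a n` is `lcm {1, ..., n}` divided by the denominator (in lowest terms) of the `n`-th harmonic
number `H_n = ∑_{k=1}^n 1/k` (Mathlib's `harmonic n`). -/
def a (n : ℕ) : ℕ := (Finset.Icc 1 n).lcm id / (harmonic n).den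

/-- The value of `lcm(1, ..., 80)`. -/
theorem lcm80 : (Finset.Icc 1 80).lcm id = 32433859254793982911622772305630400 := by
  decide +kernel

/-- Small check: for `27 ≤ N ≤ 80`, with `D = lcm(1, ..., 80)`, the integer `D * H_N` is not
divisible by `81`. -/
theorem small_check : ∀ N ∈ Finset.Icc 27 80,
    ¬ (81 ∣ ∑ i ∈ Finset.Icc 1 N, 32433859254793982911622772305630400 / i) := by
  decide +kernel

/-- Every `j ∈ [1, n]` divides `lcm(1, ..., n)`. -/
theorem dvd_L {n j : ℕ} (h1 : 1 ≤ j) (h2 : j ≤ n) : j ∣ (Finset.Icc 1 n).lcm id :=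
  Finset.dvd_lcm (f := id) (Finset.mem_Icc.2 ⟨h1, h2⟩)

/-- Divisibility of the numerator sum by `a n`. -/
theorem a_dvd_sum (n : ℕ) :
    (harmonic n).den ∣ (Finset.Icc 1 n).lcm id ∧
      a n ∣ ∑ j ∈ Finset.Icc 1 n, (Finset.Icc 1 n).lcm id / j := by
  set L := (Finset.Icc 1 n).lcm id with hL
  have hLpos : 0 < L := by
    rw [Nat.pos_iff_ne_zero, hL, Ne, Finset.lcm_eq_zero_iff]
    simp
  set T := ∑ j ∈ Finset.Icc 1 n, L / j with hT
  have h1 : (harmonic n) * (L : ℚ) = (T : ℚ) := by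
    rw [harmonic_eq_sum_Icc, hT, Finset.sum_mul]
    push_cast
    refine Finset.sum_congr rfl fun j hj => ?_
    have hj1 := (Finset.mem_Icc.1 hj).1
    have hd : j ∣ L := dvd_L hj1 (Finset.mem_Icc.1 hj).2
    rw [Nat.cast_div hd (by exact_mod_cast (by omega : j ≠ 0))]
    field_simp
  have h2 : (harmonic n).num * (L : ℤ) = (T : ℤ) * ((harmonic n).den : ℤ) := by
    have h3 : ((harmonic n).num : ℚ) / ((harmonic n).den : ℚ) * (L : ℚ) = (T : ℚ) := by
      rw [Rat.num_div_den]; exact h1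
    have h4 : ((harmonic n).den : ℚ) ≠ 0 := by exact_mod_cast (harmonic n).den_ne_zero
    have h5 : ((harmonic n).num : ℚ) * (L : ℚ) = (T : ℚ) * ((harmonic n).den : ℚ) := by
      field_simp at h3
      linarith
    exact_mod_cast h5
  have hden : (harmonic n).den ∣ L := by
    have h6 : ((harmonic n).den : ℤ) ∣ (harmonic n).num * (L : ℤ) := ⟨T, by rw [h2]; ring⟩
    have h7 : IsCoprime ((harmonic n).den : ℤ) (harmonic n).num := by
      rw [Int.isCoprime_iff_gcd_eq_one, Int.gcd_comm]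
      exact (harmonic n).reduced
    exact_mod_cast h7.dvd_of_dvd_mul_left h6
  refine ⟨hden, ?_⟩
  obtain ⟨c, hc⟩ := hden
  have hdpos : 0 < (harmonic n).den := (harmonic n).den_pos
  have hac : a n = c := by
    unfold a
    rw [← hL, hc, Nat.mul_div_cancel_left _ hdpos]
  rw [hac]
  have h8 : (harmonic n).num * (c : ℤ) = (T : ℤ) := by
    have h9 : ((harmonic n).den : ℤ) ≠ 0 := by exact_mod_cast hdpos.ne'
    have : ((harmonic n).den : ℤ) * ((harmonic n).num * (c : ℤ)) =
        ((harmonic n).den : ℤ) * (T : ℤ) := by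
      have h10 : (L : ℤ) = ((harmonic n).den : ℤ) * (c : ℤ) := by exact_mod_cast hc
      rw [h10] at h2
      linarith
    exact mul_left_cancel₀ h9 this
  have h11 : (c : ℤ) ∣ (T : ℤ) := ⟨(harmonic n).num, by rw [← h8]; ring⟩
  exact_mod_cast h11

/-- `81` never divides `a n`. -/
theorem not_dvd (n : ℕ) (hn : 1 ≤ n) : ¬ (81 ∣ a n) := by
  intro h81
  obtain ⟨hden, hsum⟩ := a_dvd_sum n
  set L := (Finset.Icc 1 n).lcm id with hL
  have h81T : 81 ∣ ∑ j ∈ Finset.Icc 1 n, L / j := dvd_trans h81 hsum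
  have h81L : 81 ∣ L := by
    have : a n ∣ L := Nat.div_dvd_of_dvd hden
    exact dvd_trans h81 this
  have hLpos : 0 < L := by
    rw [Nat.pos_iff_ne_zero, hL, Ne, Finset.lcm_eq_zero_iff]
    simp
  set k := Nat.log 3 n with hk
  have hk1 : 3 ^ k ≤ n := Nat.pow_log_le_self 3 (by omega)
  have hk2 : n < 3 ^ (k + 1) := Nat.lt_pow_succ_log_self (by norm_num) n
  -- the 3-free cofactor
  set Q := ∏ j ∈ Finset.Icc 1 n, (j / 3 ^ (j.factorization 3)) with hQ
  have hQ3 : ¬ (3 ∣ Q) := by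
    rw [hQ, Nat.prime_three.prime.dvd_finsetProd_iff]
    rintro ⟨j, hj, hd⟩
    exact Nat.not_dvd_ordCompl Nat.prime_three (by have := (Finset.mem_Icc.1 hj).1; omega) hd
  have hval : ∀ j, 1 ≤ j → j ≤ n → j.factorization 3 ≤ k := by
    intro j h1 h2
    have h3 : 3 ^ (j.factorization 3) ≤ j := Nat.ordProj_le 3 (by omega)
    have h4 : 3 ^ (j.factorization 3) < 3 ^ (k + 1) := by omega
    have := (Nat.pow_lt_pow_iff_right (by norm_num : 1 < 3)).1 h4
    omega
  have hLdvd : L ∣ 3 ^ k * Q := by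
    rw [hL]
    refine Finset.lcm_dvd fun j hj => ?_
    have h1 := (Finset.mem_Icc.1 hj).1
    have h2 := (Finset.mem_Icc.1 hj).2
    have h3 : j = 3 ^ (j.factorization 3) * (j / 3 ^ (j.factorization 3)) :=
      (Nat.ordProj_mul_ordCompl_eq_self j 3).symm
    simp only [id]
    rw [h3]
    exact mul_dvd_mul (pow_dvd_pow 3 (hval j h1 h2)) (Finset.dvd_prod_of_mem _ hj)
  have hcopQ : ∀ e : ℕ, Nat.Coprime (3 ^ e) Q := fun e =>
    Nat.Coprime.pow_left e ((Nat.Prime.coprime_iff_not_dvd Nat.prime_three).2 hQ3)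
  have hk4 : 4 ≤ k := by
    have h1 : 3 ^ 4 ∣ 3 ^ k * Q := dvd_trans (by norm_num; exact h81L) hLdvd
    have h2 : 3 ^ 4 ∣ 3 ^ k := (hcopQ 4).dvd_of_dvd_mul_right h1
    exact (Nat.pow_dvd_pow_iff_le_right (by norm_num)).1 h2
  obtain ⟨L', hL'⟩ : 3 ^ k ∣ L := dvd_L (Nat.one_le_pow _ _ (by norm_num)) hk1
  have hL'3 : ¬ (3 ∣ L') := by
    rintro ⟨c, hc⟩
    have h1 : 3 ^ (k + 1) ∣ 3 ^ k * Q := by
      refine dvd_trans ⟨c, ?_⟩ hLdvd
      rw [hL', hc]; ring
    have h2 : 3 ^ (k + 1) ∣ 3 ^ k := (hcopQ (k + 1)).dvd_of_dvd_mul_right h1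
    have := (Nat.pow_dvd_pow_iff_le_right (by norm_num)).1 h2
    omega
  set M := 3 ^ (k - 3) with hM
  have hMpos : 0 < M := by positivity
  have hkM : 3 ^ k = M * 27 := by
    rw [hM, show (27 : ℕ) = 3 ^ 3 by norm_num, ← pow_add]
    congr 1; omega
  set N := n / M with hN
  have hN1 : 27 ≤ N := by
    rw [hN, Nat.le_div_iff_mul_le hMpos, mul_comm, ← hkM]; exact hk1
  have hN2 : N ≤ 80 := by
    have : n < 81 * M := by
      calc n < 3 ^ (k + 1) := hk2
        _ = 81 * M := by rw [pow_succ, hkM]; ring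
    have := (Nat.div_lt_iff_lt_mul hMpos).2 this
    omega
  -- split the sum
  have hsplit : ∑ j ∈ Finset.Icc 1 n, L / j =
      ∑ j ∈ (Finset.Icc 1 n).filter (fun j => M ∣ j), L / j +
      ∑ j ∈ (Finset.Icc 1 n).filter (fun j => ¬ M ∣ j), L / j :=
    (Finset.sum_filter_add_sum_filter_not _ _ _).symm
  have hsecond : 81 ∣ ∑ j ∈ (Finset.Icc 1 n).filter (fun j => ¬ M ∣ j), L / j := by
    refine Finset.dvd_sum fun j hj => ?_
    rw [Finset.mem_filter, Finset.mem_Icc] at hj
    obtain ⟨⟨hj1, hj2⟩, hjM⟩ := hj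
    have hjL : j ∣ L := dvd_L hj1 hj2
    rw [Nat.dvd_div_iff_mul_dvd hjL]
    have h3 : j = 3 ^ (j.factorization 3) * (j / 3 ^ (j.factorization 3)) :=
      (Nat.ordProj_mul_ordCompl_eq_self j 3).symm
    have hv : j.factorization 3 + 4 ≤ k := by
      by_contra hcon
      apply hjM
      rw [hM]
      exact dvd_trans (pow_dvd_pow 3 (by omega)) (Nat.ordProj_dvd j 3)
    have hj' : (j / 3 ^ (j.factorization 3)) ∣ L' := by
      have h4 : (j / 3 ^ (j.factorization 3)) ∣ 3 ^ k * L' := by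
        rw [← hL']; exact dvd_trans (Nat.ordCompl_dvd j 3) hjL
      have h5 : Nat.Coprime (j / 3 ^ (j.factorization 3)) (3 ^ k) :=
        ((Nat.coprime_ordCompl Nat.prime_three (by omega)).pow_left k).symm
      exact h5.dvd_of_dvd_mul_left h4
    have h6 : j * 81 = 3 ^ (j.factorization 3 + 4) * (j / 3 ^ (j.factorization 3)) := by
      conv_lhs => rw [h3]
      rw [pow_add]; ring
    rw [h6, hL']
    exact mul_dvd_mul (pow_dvd_pow 3 hv) hj'
  have hfirst : ∑ j ∈ (Finset.Icc 1 n).filter (fun j => M ∣ j), L / j =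
      ∑ i ∈ Finset.Icc 1 N, (27 * L') / i := by
    symm
    refine Finset.sum_bij (fun i _ => M * i) ?_ ?_ ?_ ?_
    · intro i hi
      rw [Finset.mem_Icc] at hi
      rw [Finset.mem_filter, Finset.mem_Icc]
      refine ⟨⟨?_, ?_⟩, dvd_mul_right _ _⟩
      · exact Nat.one_le_iff_ne_zero.2 (Nat.mul_ne_zero hMpos.ne' (by omega))
      · calc M * i ≤ M * N := Nat.mul_le_mul_left _ hi.2
          _ ≤ n := Nat.mul_div_le n M
    · intro i _ j _ hij
      exact Nat.eq_of_mul_eq_mul_left hMpos hij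
    · intro j hj
      rw [Finset.mem_filter, Finset.mem_Icc] at hj
      obtain ⟨⟨hj1, hj2⟩, i, rfl⟩ := hj
      refine ⟨i, ?_, rfl⟩
      rw [Finset.mem_Icc]
      constructor
      · rcases Nat.eq_zero_or_pos i with h | h
        · simp [h] at hj1
        · exact h
      · rw [hN, Nat.le_div_iff_mul_le hMpos, mul_comm]; exact hj2
    · intro i _
      rw [hL', hkM, mul_assoc, Nat.mul_div_mul_left _ _ hMpos]
  have h81F : 81 ∣ ∑ i ∈ Finset.Icc 1 N, (27 * L') / i := by
    rw [hsplit, hfirst] at h81T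
    exact (Nat.dvd_add_left hsecond).1 h81T
  -- compare with `lcm(1, ..., 80)`
  have hD : (32433859254793982911622772305630400 : ℕ) = 27 * 1201254046473851218948991566875200 := by
    norm_num
  have hkey : 1201254046473851218948991566875200 * ∑ i ∈ Finset.Icc 1 N, (27 * L') / i =
      L' * ∑ i ∈ Finset.Icc 1 N, 32433859254793982911622772305630400 / i := by
    rw [Finset.mul_sum, Finset.mul_sum]
    refine Finset.sum_congr rfl fun i hi => ?_
    rw [Finset.mem_Icc] at hi
    have hi1 : i ∣ 27 * L' := by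
      have h1 : M * i ∣ M * (27 * L') := by
        rw [← mul_assoc, ← hkM, ← hL']
        refine dvd_L ?_ ?_
        · exact Nat.one_le_iff_ne_zero.2 (Nat.mul_ne_zero hMpos.ne' (by omega))
        · calc M * i ≤ M * N := Nat.mul_le_mul_left _ hi.2
            _ ≤ n := Nat.mul_div_le n M
      exact Nat.dvd_of_mul_dvd_mul_left hMpos h1
    have hi2 : i ∣ 32433859254793982911622772305630400 := by
      rw [← lcm80]; exact dvd_L hi.1 (by omega)
    rw [← Nat.mul_div_assoc _ hi1, ← Nat.mul_div_assoc _ hi2, hD]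
    congr 1; ring
  have hfin : 81 ∣ ∑ i ∈ Finset.Icc 1 N, 32433859254793982911622772305630400 / i := by
    have h1 : 81 ∣ L' * ∑ i ∈ Finset.Icc 1 N, 32433859254793982911622772305630400 / i := by
      rw [← hkey]; exact Dvd.dvd.mul_left h81F _
    have h2 : Nat.Coprime 81 L' := by
      rw [show (81 : ℕ) = 3 ^ 4 by norm_num]
      exact Nat.Coprime.pow_left 4 ((Nat.Prime.coprime_iff_not_dvd Nat.prime_three).2 hL'3)
    exact h2.dvd_of_dvd_mul_left h1
  exact small_check N (Finset.mem_Icc.2 ⟨hN1, hN2⟩) hfin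

/-- Not every odd positive integer is of the form `lcm(1, ..., n) / den(H_n)`: the value is never
divisible by `81`, so no odd multiple of `81` (in particular `81` itself) occurs. -/
theorem result :
    (¬ ∀ m : ℕ, Odd m → ∃ n : ℕ, 1 ≤ n ∧ a n = m) ∧
      ∀ n : ℕ, 1 ≤ n → ¬ (81 ∣ a n) := by
  refine ⟨fun h => ?_, not_dvd⟩
  obtain ⟨n, hn, h1⟩ := h 81 (by decide)
  exact not_dvd n hn (by rw [h1])

end Pool.Agent.Results.MP_2b19eb_nt.MissedMultiples
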